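import Pool.Agent.W243.TD.Main

/-!
# Families of exponentials: the form for linearly independent polynomials
-/

set_option autoImplicit false

namespace Pool.Agent.W243.TD

open Module Polynomial

/-- exponentials of rational combinations -/
theorem al_exp_span {θ : ℂ} {ι : Type*} {f : ι → ℂ} (h : ∀ i, Al θ (Complex.exp (f i))) :
    ∀ z ∈ Submodule.span ℚ (Set.range f), Al θ (Complex.exp z) := by
  intro z hz
  induction hz using Submodule.span_induction with
  | mem x hx =>
    obtain ⟨i, rfl⟩ := hx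
    exact h i
  | zero => rw [Complex.exp_zero]; exact isAlgebraic_one
  | add x y _ _ hx hy => rw [Complex.exp_add]; exact hx.mul hy
  | smul a x _ hx =>
    have hd : 0 < a.den := a.den_pos
    apply IsAlgebraic.of_pow hd
    have e1 : Complex.exp (a • x) ^ a.den = Complex.exp x ^ a.num := by
      rw [← Complex.exp_nat_mul, ← Complex.exp_int_mul]
      congr 1
      have h2 : (a.den : ℂ) * (a : ℂ) = (a.num : ℂ) := by
        have := Rat.den_mul_eq_num a
        exact_mod_cast this
      rw [Rat.smul_def, ← mul_assoc, h2]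
    rw [e1]
    obtain ⟨m, hm | hm⟩ := a.num.eq_nat_or_neg
    · rw [hm, zpow_natCast]; exact hx.pow m
    · rw [hm, zpow_neg, zpow_natCast]; exact (hx.pow m).inv

theorem al_exp_poly {t y : ℂ} {ι : Type*} {P : ι → ℚ[X]}
    (h : ∀ i, Al t (Complex.exp (y * aeval t (P i)))) :
    ∀ Q ∈ Submodule.span ℚ (Set.range P), Al t (Complex.exp (y * aeval t Q)) := by
  intro Q hQ
  let ev : ℚ[X] →ₗ[ℚ] ℂ := (LinearMap.mulLeft ℚ y).comp (aeval t).toLinearMap
  have h1 : ev Q ∈ Submodule.span ℚ (Set.range (fun i => ev (P i))) := by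
    have := Submodule.mem_map_of_mem (f := ev) hQ
    rwa [Submodule.map_span, ← Set.range_comp] at this
  exact al_exp_span (f := fun i => ev (P i)) h _ h1

theorem deg_span {n : ℕ} {ι : Type*} {P : ι → ℚ[X]} (h : ∀ i, (P i).natDegree ≤ n) :
    ∀ Q ∈ Submodule.span ℚ (Set.range P), Q.natDegree ≤ n := by
  intro Q hQ
  induction hQ using Submodule.span_induction with
  | mem x hx => obtain ⟨i, rfl⟩ := hx; exact h i
  | zero => simp
  | add x y _ _ hx hy => exact (natDegree_add_le _ _).trans (max_le hx hy)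
  | smul a x _ hx => exact (natDegree_smul_le _ _).trans hx

/-- multiplier algebraic over `ℚ(t)` -/
theorem fam_list1 {t y : ℂ} (ht : Transcendental ℚ t) (hy : y ≠ 0) (hy' : Al t y) {n w : ℕ}
    (P : Fin w → ℚ[X]) (hP : LinearIndependent ℚ P) (hn : ∀ i, (P i).natDegree ≤ n)
    (h : ∀ i, Al t (Complex.exp (y * aeval t (P i)))) : w ^ 2 ≤ 4 * n + 1 := by
  have h1 := fam1 t y ht hy hy' n (Submodule.span ℚ (Set.range P)) (deg_span hn) (al_exp_poly h)
  rwa [finrank_span_eq_card hP, Fintype.card_fin] at h1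

theorem num2 {w n : ℕ} (h : ∀ m : ℕ, m * w + m ≤ n + 2 * m ^ 2) : (w + 1) ^ 2 ≤ 8 * n + 7 := by
  by_contra hc
  push Not at hc
  obtain ⟨k, r, hr, hw⟩ : ∃ k r, r < 4 ∧ w + 3 = 4 * k + r :=
    ⟨(w + 3) / 4, (w + 3) % 4, Nat.mod_lt _ (by norm_num), (Nat.div_add_mod _ _).symm⟩
  have h1 := h k
  have h2 := h 0
  interval_cases r
  · -- w + 1 = 4 k - 2
    obtain rfl | ⟨k, rfl⟩ : k = 0 ∨ ∃ j, k = j + 1 := by
      rcases k with _ | k
      · left; rfl
      · right; exact ⟨k, rfl⟩
    · omega
    · have : w = 4 * k + 1 := by omega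
      subst this
      nlinarith
  · have : w + 2 = 4 * k := by omega
    obtain rfl | ⟨k, rfl⟩ : k = 0 ∨ ∃ j, k = j + 1 := by
      rcases k with _ | k
      · left; rfl
      · right; exact ⟨k, rfl⟩
    · omega
    · have : w = 4 * k + 2 := by omega
      subst this
      nlinarith
  · have : w + 1 = 4 * k := by omega
    obtain rfl | ⟨k, rfl⟩ : k = 0 ∨ ∃ j, k = j + 1 := by
      rcases k with _ | k
      · left; rfl
      · right; exact ⟨k, rfl⟩
    · omega
    · have : w = 4 * k + 3 := by omega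
      subst this
      nlinarith
  · have : w = 4 * k := by omega
    subst this
    nlinarith

/-- arbitrary multiplier -/
theorem fam_list2 {t y : ℂ} (ht : Transcendental ℚ t) (hy : y ≠ 0) {n w : ℕ}
    (P : Fin w → ℚ[X]) (hP : LinearIndependent ℚ P) (hn : ∀ i, (P i).natDegree ≤ n)
    (h : ∀ i, Al t (Complex.exp (y * aeval t (P i)))) : (w + 1) ^ 2 ≤ 8 * n + 7 := by
  apply num2
  intro m
  have h1 := fam2 t y ht hy n (Submodule.span ℚ (Set.range P)) (deg_span hn) (al_exp_poly h) m
  rwa [finrank_span_eq_card hP, Fintype.card_fin] at h1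

end Pool.Agent.W243.TD
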