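import Mathlib

/-!
# Squares of spaces in a field of transcendence degree one: statement
-/

set_option autoImplicit false

namespace Pool.Agent.W243.TD

open Module

/-- The square of the space spanned by elements `z i` of a field `F` of transcendence degree one
over `ℚ` has dimension at most `2 a + δ`, `a` the degree of the lowest common multiple of the
divisors of poles, `a ≤ ∑ [F : ℚ(z i)]`, `δ = [F ∩ ℚ̄ : ℚ] ≤ [F : ℚ(z j)]`. -/
def S_sq : Prop := ∀ (F : IntermediateField ℚ ℂ) (N : ℕ) (z : Fin N → F),
  LinearIndependent ℚ z → (∀ i, Transcendental ℚ (z i)) →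
  (∀ i, FiniteDimensional (IntermediateField.adjoin ℚ {z i}) F) → ∀ j,
  finrank ℚ (Submodule.span ℚ (Set.range z) * Submodule.span ℚ (Set.range z) : Submodule ℚ F) ≤
    2 * ∑ i, finrank (IntermediateField.adjoin ℚ {z i}) F +
      finrank (IntermediateField.adjoin ℚ {z j}) F

end Pool.Agent.W243.TD
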