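import Pool.Agent.W243.TD.Grow
import Pool.Agent.W243.TD.Use
import Pool.Agent.W64.TD.Sq
import Pool.Agent.H340R2.LW

/-!
# Degrees of elements with algebraic exponentials in a field of transcendence degree one
-/

set_option autoImplicit false

namespace Pool.Agent.W243.TD

open Module IntermediateField

variable {F : IntermediateField ℚ ℂ}

/-- `W ^ (m + 1)` is at least as large as `W` -/
theorem le_finrank_pow {k E : Type*} [Field k] [Field E] [Algebra k E] (W : Submodule k E)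
    [FiniteDimensional k W] (hW : W ≠ ⊥) (m : ℕ) :
    FiniteDimensional k (W ^ (m + 1) : Submodule k E) ∧
      finrank k W ≤ finrank k (W ^ (m + 1) : Submodule k E) := by
  induction m with
  | zero => rw [zero_add, pow_one]; exact ⟨inferInstance, le_rfl⟩
  | succ m ih =>
    obtain ⟨w, hw, hw0⟩ := (Submodule.ne_bot_iff _).1 hW
    have hfd := ih.1
    have hfd2 : FiniteDimensional k (W ^ (m + 1 + 1) : Submodule k E) := by
      rw [pow_succ]
      exact Module.Finite.iff_fg.2 (Submodule.FG.mul (Module.Finite.iff_fg.1 hfd)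
        (Module.Finite.iff_fg.1 inferInstance))
    refine ⟨hfd2, ih.2.trans ?_⟩
    let T : E →ₗ[k] E := LinearMap.mulLeft k w
    have hTinj : Function.Injective T := mul_right_injective₀ hw0
    rw [(Submodule.equivMapOfInjective T hTinj (W ^ (m + 1))).finrank_eq]
    refine Submodule.finrank_mono ?_
    rw [Submodule.map_le_iff_le_comap]
    intro x hx
    rw [Submodule.mem_comap]
    show w * x ∈ W ^ (m + 1 + 1)
    rw [mul_comm, pow_succ]
    exact Submodule.mul_mem_mul hx hw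

/-- from a lower bound for products to a bound for degrees -/
theorem degrees_of_products {N : ℕ} (z : Fin N → F) (hz : LinearIndependent ℚ z)
    (ht : ∀ i, Transcendental ℚ (z i)) (hf : ∀ i, FiniteDimensional ℚ⟮z i⟯ F) (j : Fin N)
    (s c : ℕ) (hs : s ≤ N)
    (hprod : ∀ Y : Submodule ℚ F, finrank ℚ Y = s →
      s + c ≤ finrank ℚ (Y * Submodule.span ℚ (Set.range z) : Submodule ℚ F)) :
    c + 1 ≤ ∑ i, finrank ℚ⟮z i⟯ F + finrank ℚ⟮z j⟯ F := by
  set W := Submodule.span ℚ (Set.range z) with hWdef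
  have hWfd : FiniteDimensional ℚ W := FiniteDimensional.span_of_finite ℚ (Set.finite_range z)
  have hWfr : finrank ℚ W = N := by rw [hWdef, finrank_span_eq_card hz, Fintype.card_fin]
  have hW : W ≠ ⊥ := by
    intro h
    rw [h, finrank_bot] at hWfr
    exact absurd j.2 (by omega)
  have hfj := hf j
  have step : ∀ m : ℕ, finrank ℚ (W ^ (m + 1) : Submodule ℚ F) + c + 1 ≤
      finrank ℚ (W ^ (m + 1 + 1) : Submodule ℚ F) + finrank ℚ⟮z j⟯ F := by
    intro m
    obtain ⟨h1, h2⟩ := le_finrank_pow W hW m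
    obtain ⟨Y, _, hY2, hY3⟩ := grow (ht j) (W ^ (m + 1)) W hW s (by omega)
    have h4 := hprod Y hY2
    rw [← pow_succ] at hY3
    omega
  have h1 : ∀ m : ℕ, m * (c + 1) ≤
      finrank ℚ (W ^ (m + 1) : Submodule ℚ F) + m * finrank ℚ⟮z j⟯ F := by
    intro m
    induction m with
    | zero => simp
    | succ m ih =>
      have := step m
      rw [Nat.succ_mul, Nat.succ_mul]
      omega
  have h2 : ∀ m : ℕ, m * (c + 1) ≤
      (m + 1) * ∑ i, finrank ℚ⟮z i⟯ F + (m + 1) * finrank ℚ⟮z j⟯ F := by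
    intro m
    have h3 := Pool.Agent.W64.TD.pow_bound z ht hf j (m + 1)
    have h4 := h1 m
    rw [← hWdef] at h3
    rw [Nat.succ_mul m (finrank ℚ⟮z j⟯ F)]
    omega
  by_contra hcon
  push Not at hcon
  obtain ⟨A, hA⟩ : ∃ A, A = ∑ i, finrank ℚ⟮z i⟯ F + finrank ℚ⟮z j⟯ F := ⟨_, rfl⟩
  have h3 := h2 (A + 1)
  rw [← mul_add, ← hA] at h3
  rw [← hA] at hcon
  nlinarith

/-- elements of `F` are algebraic over `ℚ(θ)`, `θ ∈ F` with `F` algebraic over `ℚ(θ)` -/
theorem al_of_mem (θ : F) [Algebra.IsAlgebraic ℚ⟮θ⟯ F] (x : F) : Al (θ : ℂ) (x : ℂ) := by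
  obtain ⟨p, hp0, hp⟩ := Algebra.IsAlgebraic.isAlgebraic (R := ℚ⟮θ⟯) x
  have hmem : ∀ y : ℚ⟮θ⟯, ((y : F) : ℂ) ∈ adjoin ℚ {(θ : ℂ)} := by
    rintro ⟨y, hy⟩
    show (y : ℂ) ∈ adjoin ℚ {(θ : ℂ)}
    induction hy using adjoin_induction with
    | mem x hx =>
      rw [Set.mem_singleton_iff.1 hx]
      exact mem_adjoin_simple_self ℚ (θ : ℂ)
    | algebraMap q =>
      have h1 : ((algebraMap ℚ F q : F) : ℂ) = (q : ℂ) := by simp
      rw [h1]
      exact (adjoin ℚ {(θ : ℂ)}).algebraMap_mem q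
    | add x y _ _ hx hy => exact add_mem hx hy
    | inv x _ hx => exact inv_mem hx
    | mul x y _ _ hx hy => exact mul_mem hx hy
  let f : ℚ⟮θ⟯ →+* adjoin ℚ {(θ : ℂ)} :=
    { toFun := fun y => ⟨((y : F) : ℂ), hmem y⟩
      map_one' := rfl
      map_mul' := fun _ _ => rfl
      map_zero' := rfl
      map_add' := fun _ _ => rfl }
  refine ⟨p.map f, (Polynomial.map_ne_zero_iff f.injective).2 hp0, ?_⟩
  rw [Polynomial.aeval_def, Polynomial.eval₂_map]
  have h2 : (algebraMap (adjoin ℚ {(θ : ℂ)}) ℂ).comp f =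
      (algebraMap F ℂ).comp (algebraMap ℚ⟮θ⟯ F) := rfl
  rw [h2]
  have h3 := Polynomial.hom_eval₂ p (algebraMap ℚ⟮θ⟯ F) (algebraMap F ℂ) x
  rw [← Polynomial.aeval_def, hp, map_zero] at h3
  exact h3.symm

theorem al_trans {θ : ℂ} (h : ∀ x : F, Al θ (x : ℂ)) {y : ℂ} (hy : IsAlgebraic F y) : Al θ y := by
  obtain ⟨p, hp0, hp⟩ := hy
  let A := algebraicClosure (adjoin ℚ {θ}) ℂ
  have hmem : ∀ x : F, (x : ℂ) ∈ A := fun x => mem_algebraicClosure_iff.2 (h x)
  let f : F →+* A :=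
    { toFun := fun x => ⟨(x : ℂ), hmem x⟩
      map_one' := rfl
      map_mul' := fun _ _ => rfl
      map_zero' := rfl
      map_add' := fun _ _ => rfl }
  have h1 : IsAlgebraic A y := by
    refine ⟨p.map f, (Polynomial.map_ne_zero_iff f.injective).2 hp0, ?_⟩
    rw [Polynomial.aeval_def, Polynomial.eval₂_map]
    exact hp
  exact h1.restrictScalars (adjoin ℚ {θ})

section

variable {L : ℂ} (hL : L ≠ 0) {N : ℕ} (z : Fin N → F) (hz : LinearIndependent ℚ z)
  (hf : ∀ i, FiniteDimensional ℚ⟮z i⟯ F) (htr : ¬ Algebra.IsAlgebraic ℚ F)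
  (he : ∀ i, IsAlgebraic F (Complex.exp (L * z i)))

include hf htr in
theorem tr_of_fin (i : Fin N) : Transcendental ℚ (z i) := by
  intro h
  apply htr
  have h1 : FiniteDimensional ℚ ℚ⟮z i⟯ := adjoin.finiteDimensional h.isIntegral
  have h2 := hf i
  have h3 : FiniteDimensional ℚ F := FiniteDimensional.trans ℚ ℚ⟮z i⟯ F
  exact Algebra.IsAlgebraic.of_finite ℚ F

include hL hz hf htr he in
theorem deg_L (j : Fin N) :
    (N + 1) ^ 2 + 4 ≤ 8 * (∑ i, finrank ℚ⟮z i⟯ F + finrank ℚ⟮z j⟯ F) := by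
  have ht := tr_of_fin z hf htr
  have hfj := hf j
  have hal : ∀ x : F, Al (z j : ℂ) (x : ℂ) := al_of_mem (z j)
  have htj : Transcendental ℚ (z j : ℂ) := by
    intro h
    exact ht j ((isAlgebraic_algebraMap_iff (algebraMap F ℂ).injective).1 h)
  set W := Submodule.span ℚ (Set.range z) with hWdef
  have hWfd : FiniteDimensional ℚ W := FiniteDimensional.span_of_finite ℚ (Set.finite_range z)
  have hWfr : finrank ℚ W = N := by rw [hWdef, finrank_span_eq_card hz, Fintype.card_fin]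
  let φ : F →ₗ[ℚ] ℂ := F.val.toLinearMap
  have hφ : Function.Injective φ := F.val.injective
  have fr : ∀ V : Submodule ℚ F, finrank ℚ (V.map φ) = finrank ℚ V := fun V =>
    (Submodule.equivMapOfInjective φ hφ V).finrank_eq.symm
  have hWexp : ∀ w ∈ W.map φ, Al (z j : ℂ) (Complex.exp (L * w)) := by
    rintro _ ⟨w, hw, rfl⟩
    have h1 : L * (w : ℂ) ∈ Submodule.span ℚ (Set.range fun i => L * ((z i : F) : ℂ)) := by
      have h2 := Submodule.mem_map_of_mem (f := (LinearMap.mulLeft ℚ L).comp φ) hw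
      rw [hWdef, Submodule.map_span, ← Set.range_comp] at h2
      exact h2
    exact al_exp_span (fun i => al_trans hal (he i)) _ h1
  have hprod : ∀ Y : Submodule ℚ F, finrank ℚ Y = (N + 2) / 4 →
      (N + 2) / 4 + ((N + 2) / 4) * (N + 1 - 2 * ((N + 2) / 4)) ≤
        finrank ℚ (Y * W : Submodule ℚ F) := by
    intro Y hY
    have hs0 : 0 < N := Fin.pos j
    rcases Nat.eq_zero_or_pos ((N + 2) / 4) with h0 | h0
    · rw [h0]; simp
    have hYfd : FiniteDimensional ℚ Y := Module.finite_of_finrank_pos (by omega)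
    have hYWfd : FiniteDimensional ℚ (Y * W : Submodule ℚ F) :=
      Module.Finite.iff_fg.2 (Submodule.FG.mul (Module.Finite.iff_fg.1 hYfd)
        (Module.Finite.iff_fg.1 hWfd))
    have h1 := prod2 htj hL (Y.map φ) (W.map φ) ((Y * W).map φ)
      (by rintro _ ⟨w, _, rfl⟩; exact hal w) hWexp (by
        rintro _ ⟨y, hy, rfl⟩ _ ⟨w, hw, rfl⟩
        exact ⟨y * w, Submodule.mul_mem_mul hy hw, rfl⟩)
    rw [fr, fr, fr, hWfr, hY] at h1
    obtain ⟨s, hs⟩ : ∃ s, s = (N + 2) / 4 := ⟨_, rfl⟩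
    rw [← hs] at h1 h0 ⊢
    obtain ⟨u, hu⟩ : ∃ u, N + 1 = u + 2 * s := ⟨N + 1 - 2 * s, by omega⟩
    rw [hu, Nat.add_sub_cancel]
    obtain ⟨v, rfl⟩ : ∃ v, s = v + 1 := ⟨s - 1, by omega⟩
    have hN : N = u + 2 * v + 1 := by omega
    rw [hN] at h1
    simp only [Nat.add_sub_cancel] at h1
    nlinarith
  have h := degrees_of_products z hz ht hf j ((N + 2) / 4)
    (((N + 2) / 4) * (N + 1 - 2 * ((N + 2) / 4))) (by have := Fin.pos j; omega) hprod
  have h2 : (N + 1) ^ 2 ≤ 8 * (((N + 2) / 4) * (N + 1 - 2 * ((N + 2) / 4))) + 4 := by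
    obtain ⟨q, r, hr, hq⟩ : ∃ q r, r < 4 ∧ N + 2 = 4 * q + r :=
      ⟨(N + 2) / 4, (N + 2) % 4, Nat.mod_lt _ (by norm_num), (Nat.div_add_mod _ _).symm⟩
    have hq2 : (N + 2) / 4 = q := by omega
    rw [hq2]
    obtain ⟨u, hu⟩ : ∃ u, N + 1 = u + 2 * q := ⟨N + 1 - 2 * q, by omega⟩
    rw [hu, Nat.add_sub_cancel]
    have hu2 : u + 1 = 2 * q + r := by omega
    interval_cases r
    · obtain rfl | ⟨q, rfl⟩ : q = 0 ∨ ∃ q', q = q' + 1 := by
        rcases q with _ | q
        · left; rfl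
        · right; exact ⟨q, rfl⟩
      · omega
      · have : u = 2 * q + 1 := by omega
        subst this
        nlinarith
    · have : u = 2 * q := by omega
      subst this
      nlinarith
    · have : u = 2 * q + 1 := by omega
      subst this
      nlinarith
    · have : u = 2 * q + 2 := by omega
      subst this
      nlinarith
  omega

include hL hz hf htr he in
theorem deg_1 (hLF : IsAlgebraic F L) (j : Fin N) :
    N ^ 2 + 3 ≤ 4 * (∑ i, finrank ℚ⟮z i⟯ F + finrank ℚ⟮z j⟯ F) := by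
  have ht := tr_of_fin z hf htr
  have hfj := hf j
  have hal : ∀ x : F, Al (z j : ℂ) (x : ℂ) := al_of_mem (z j)
  have htj : Transcendental ℚ (z j : ℂ) := by
    intro h
    exact ht j ((isAlgebraic_algebraMap_iff (algebraMap F ℂ).injective).1 h)
  have hLal : Al (z j : ℂ) L := al_trans hal hLF
  set W := Submodule.span ℚ (Set.range z) with hWdef
  have hWfd : FiniteDimensional ℚ W := FiniteDimensional.span_of_finite ℚ (Set.finite_range z)
  have hWfr : finrank ℚ W = N := by rw [hWdef, finrank_span_eq_card hz, Fintype.card_fin]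
  let φ : F →ₗ[ℚ] ℂ := F.val.toLinearMap
  have hφ : Function.Injective φ := F.val.injective
  let ψ : F →ₗ[ℚ] ℂ := (LinearMap.mulLeft ℚ L).comp φ
  have hψ : Function.Injective ψ := (mul_right_injective₀ hL).comp hφ
  have fr : ∀ V : Submodule ℚ F, finrank ℚ (V.map φ) = finrank ℚ V := fun V =>
    (Submodule.equivMapOfInjective φ hφ V).finrank_eq.symm
  have fr' : ∀ V : Submodule ℚ F, finrank ℚ (V.map ψ) = finrank ℚ V := fun V =>
    (Submodule.equivMapOfInjective ψ hψ V).finrank_eq.symm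
  have hWexp : ∀ w ∈ W.map ψ, Al (z j : ℂ) (Complex.exp w) := by
    rintro _ ⟨w, hw, rfl⟩
    have h1 : L * (w : ℂ) ∈ Submodule.span ℚ (Set.range fun i => L * ((z i : F) : ℂ)) := by
      have h2 := Submodule.mem_map_of_mem (f := (LinearMap.mulLeft ℚ L).comp φ) hw
      rw [hWdef, Submodule.map_span, ← Set.range_comp] at h2
      exact h2
    exact al_exp_span (fun i => al_trans hal (he i)) _ h1
  have hprod : ∀ Y : Submodule ℚ F, finrank ℚ Y = N / 2 →
      N / 2 + (N / 2) * (N - N / 2) ≤ finrank ℚ (Y * W : Submodule ℚ F) := by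
    intro Y hY
    have hs0 : 0 < N := Fin.pos j
    rcases Nat.eq_zero_or_pos (N / 2) with h0 | h0
    · rw [h0]; simp
    have hYfd : FiniteDimensional ℚ Y := Module.finite_of_finrank_pos (by omega)
    have hYWfd : FiniteDimensional ℚ (Y * W : Submodule ℚ F) :=
      Module.Finite.iff_fg.2 (Submodule.FG.mul (Module.Finite.iff_fg.1 hYfd)
        (Module.Finite.iff_fg.1 hWfd))
    have h1 := prod1 htj (Y.map φ) (W.map ψ) ((Y * W).map ψ)
      (by rintro _ ⟨w, _, rfl⟩; exact hLal.mul (hal w)) hWexp (by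
        rintro _ ⟨y, hy, rfl⟩ _ ⟨w, hw, rfl⟩
        refine ⟨y * w, Submodule.mul_mem_mul hy hw, ?_⟩
        show L * ((y : ℂ) * (w : ℂ)) = (y : ℂ) * (L * (w : ℂ))
        ring)
    rw [fr, fr', fr', hWfr, hY] at h1
    obtain ⟨s, hs⟩ : ∃ s, s = N / 2 := ⟨_, rfl⟩
    rw [← hs] at h1 h0 ⊢
    obtain ⟨u, hu⟩ : ∃ u, N = u + s := ⟨N - s, by omega⟩
    rw [hu] at h1 ⊢
    rw [Nat.add_sub_cancel]
    obtain ⟨v, rfl⟩ : ∃ v, s = v + 1 := ⟨s - 1, by omega⟩
    simp only [Nat.add_sub_cancel] at h1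
    nlinarith
  have h := degrees_of_products z hz ht hf j (N / 2) ((N / 2) * (N - N / 2))
    (Nat.div_le_self _ _) hprod
  have h2 : N ^ 2 ≤ 4 * ((N / 2) * (N - N / 2)) + 1 := by
    rcases Nat.even_or_odd' N with ⟨q, hq | hq⟩
    · have h3 : N / 2 = q := by omega
      have h4 : N - q = q := by omega
      rw [h3, h4, hq]
      nlinarith
    · have h3 : N / 2 = q := by omega
      have h4 : N - q = q + 1 := by omega
      rw [h3, h4, hq]
      nlinarith
  omega

end

end Pool.Agent.W243.TD
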