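import Mathlib

/-!
# Growth of products of spaces in an algebraic function field

`F` is a finite extension of degree `n` of `k(z)`, `z` transcendental. For all finite-dimensional
`k`-subspaces `X`, `W ≠ 0` of `F` and all `s ≤ dim X` there is `Y ⊆ X` of dimension `s` with
`dim X W ≥ dim Y W + dim X - s - (n - 1)` (filtration of `X` by the order at a place above `z = 0`).
-/

set_option autoImplicit false

namespace Pool.Agent.W243.TD

open Polynomial Module IntermediateField
open scoped IntermediateField.algebraAdjoinAdjoin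

variable {k F : Type*} [Field k] [Field F] [Algebra k F]

/-- a valuation ring above `z = 0` -/
theorem exists_place {z : F} (hz : Transcendental k z) : ∃ O : ValuationSubring F,
    (∀ a : k, algebraMap k F a ∈ O) ∧ z ∈ O ∧ z⁻¹ ∉ O := by
  let A : Subring F := (Algebra.adjoin k {z}).toSubring
  have hzA : z ∈ A := Algebra.self_mem_adjoin_singleton k z
  have hz0 : z ≠ 0 := by
    rintro rfl
    exact hz isAlgebraic_zero
  let I : Ideal A := Ideal.span {⟨z, hzA⟩}
  have hI : I ≠ ⊤ := by
    intro h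
    rw [Ideal.span_singleton_eq_top] at h
    obtain ⟨⟨u, hu⟩, hu1⟩ := h.exists_right_inv
    have hu2 : z * u = 1 := congrArg Subtype.val hu1
    have hu3 : u ∈ Algebra.adjoin k {z} := hu
    rw [Algebra.adjoin_singleton_eq_range_aeval] at hu3
    obtain ⟨p, rfl⟩ := hu3
    apply hz
    refine ⟨X * p - 1, ?_, ?_⟩
    · intro h0
      have := congrArg (fun q => q.coeff 0) h0
      simp at this
    · simp only [map_sub, map_mul, aeval_X, map_one]
      rw [sub_eq_zero]
      exact hu2
  obtain ⟨O, hAO, hIO⟩ := Ideal.image_subset_nonunits_valuationSubring I hI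
  refine ⟨O, fun a => hAO ((Algebra.adjoin k {z}).algebraMap_mem a), hAO hzA, ?_⟩
  have h1 : z ∈ O.nonunits := hIO ⟨⟨z, hzA⟩, Ideal.subset_span rfl, rfl⟩
  have := (O.inv_mem_nonunits_iff (x := z⁻¹)).1 (by rwa [inv_inv])
  rcases this with h2 | h2
  · exact absurd (inv_eq_zero.1 h2) hz0
  · exact h2

section

variable (O : ValuationSubring F) {z : F} (hk : ∀ a : k, algebraMap k F a ∈ O) (hzO : z ∈ O)
  (hzi : z⁻¹ ∉ O)

include hk hzO in
theorem aeval_mem (p : k[X]) : aeval z p ∈ O := by
  rw [aeval_eq_sum_range]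
  refine Subring.sum_mem O.toSubring fun i _ => ?_
  rw [Algebra.smul_def]
  exact O.mul_mem _ _ (hk _) (O.toSubring.pow_mem hzO i)

include hk hzO hzi in
/-- polynomials with nonzero constant coefficient are units -/
theorem aeval_unit {p : k[X]} (hp : p.coeff 0 ≠ 0) : (aeval z p)⁻¹ ∈ O := by
  by_contra h
  have hp0 : aeval z p ≠ 0 := by
    intro h0
    rw [h0, inv_zero] at h
    exact h O.zero_mem
  -- `p(z)` is a nonunit, so is `z`, hence `p(0)`
  have h1 : aeval z p ∈ O.nonunits := by
    have := (O.inv_mem_nonunits_iff (x := (aeval z p)⁻¹)).2 (Or.inr h)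
    rwa [inv_inv] at this
  have h2 : z ∈ O.nonunits := by
    have := (O.inv_mem_nonunits_iff (x := z⁻¹)).2 (Or.inr hzi)
    rwa [inv_inv] at this
  have h3 : aeval z p = z * aeval z p.divX + algebraMap k F (p.coeff 0) := by
    have := congrArg (aeval z) (X_mul_divX_add p)
    simp only [map_add, map_mul, aeval_X, aeval_C] at this
    exact this.symm
  rw [ValuationSubring.mem_nonunits_iff] at h1 h2
  have h4 : O.valuation (z * aeval z p.divX) < 1 := by
    rw [map_mul]
    have := (O.valuation_le_one_iff _).2 (aeval_mem O hk hzO p.divX)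
    exact lt_of_le_of_lt (mul_le_of_le_one_right' this) h2
  have h5 : O.valuation (algebraMap k F (p.coeff 0)) < 1 := by
    have e : algebraMap k F (p.coeff 0) = aeval z p - z * aeval z p.divX := by rw [h3]; ring
    rw [e]
    exact lt_of_le_of_lt (O.valuation.map_sub _ _) (max_lt h1 h4)
  have h6 : O.valuation (algebraMap k F (p.coeff 0)⁻¹) ≤ 1 := (O.valuation_le_one_iff _).2 (hk _)
  have h7 : O.valuation (algebraMap k F (p.coeff 0)) * O.valuation (algebraMap k F (p.coeff 0)⁻¹)
      = 1 := by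
    rw [← map_mul, ← map_mul, mul_inv_cancel₀ hp, map_one, map_one]
  have h8 := mul_lt_one_of_lt_of_le h5 h6
  rw [h7] at h8
  exact lt_irrefl _ h8

include hk hzO hzi in
theorem exists_pow_mul_mem (hz : Transcendental k z) [Algebra.IsAlgebraic k⟮z⟯ F] (x : F) : ∃ j : ℕ, z ^ j * x ∈ O := by
  have hz0 : z ≠ 0 := by
    rintro rfl
    rw [inv_zero] at hzi
    exact hzi O.zero_mem
  have h1 : IsAlgebraic (Algebra.adjoin k {z}) x := by
    have := Algebra.IsAlgebraic.isAlgebraic (R := k⟮z⟯) x
    exact (IsFractionRing.isAlgebraic_iff (Algebra.adjoin k {z}) k⟮z⟯ F).2 this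
  obtain ⟨⟨y, hy⟩, hy0, hyx⟩ := h1.exists_integral_multiple
  have hy2 := hy
  rw [Algebra.adjoin_singleton_eq_range_aeval] at hy2
  obtain ⟨p, rfl⟩ := hy2
  have hp : p ≠ 0 := by
    rintro rfl
    apply hy0
    ext
    simp
  -- integrality
  have h2 : aeval z p * x ∈ O := by
    have h3 : (Algebra.adjoin k {z}).toSubring ≤ O.toSubring := by
      intro u hu
      have hu2 : u ∈ Algebra.adjoin k {z} := hu
      rw [Algebra.adjoin_singleton_eq_range_aeval] at hu2
      obtain ⟨q, rfl⟩ := hu2
      exact aeval_mem O hk hzO q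
    let f : Algebra.adjoin k {z} →+* O :=
      { toFun := fun u => ⟨u, h3 u.2⟩
        map_one' := rfl
        map_mul' := fun _ _ => rfl
        map_zero' := rfl
        map_add' := fun _ _ => rfl }
    obtain ⟨q, hq1, hq2⟩ := hyx
    have h4 : IsIntegral O (aeval z p * x) := by
      refine ⟨q.map f, hq1.map f, ?_⟩
      rw [eval₂_map]
      exact hq2
    have h5 := IsIntegrallyClosed.isIntegral_iff.1 h4
    obtain ⟨w, hw⟩ := h5
    rw [← hw]
    exact w.2
  -- powers of `z`
  obtain ⟨j, q, hq, hq0⟩ : ∃ (j : ℕ) (q : k[X]), p = X ^ j * q ∧ q.coeff 0 ≠ 0 := by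
    obtain ⟨q, hq1, hq2⟩ := p.exists_eq_pow_rootMultiplicity_mul_and_not_dvd hp 0
    rw [C_0, sub_zero] at hq1 hq2
    exact ⟨_, q, hq1, fun h => hq2 (X_dvd_iff.2 h)⟩
  refine ⟨j, ?_⟩
  have h6 : z ^ j * x = (aeval z q)⁻¹ * (aeval z p * x) := by
    have hq1 : aeval z q ≠ 0 := by
      intro h0
      exact hz ⟨q, fun h => hq0 (by rw [h]; simp), h0⟩
    rw [hq]
    simp only [map_mul, map_pow, aeval_X]
    field_simp
  rw [h6]
  exact O.mul_mem _ _ (aeval_unit O hk hzO hzi hq0) h2

/-- the filtration by the order in powers of `z` -/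
def Fil (z : F) (j : ℤ) : Submodule k F where
  carrier := {x | z ^ (-j) * x ∈ O}
  zero_mem' := by
    show z ^ (-j) * 0 ∈ O
    rw [mul_zero]; exact O.zero_mem
  add_mem' := by
    intro x y hx hy
    show z ^ (-j) * (x + y) ∈ O
    rw [mul_add]; exact O.add_mem _ _ hx hy
  smul_mem' := by
    intro a x hx
    show z ^ (-j) * (a • x) ∈ O
    rw [mul_smul_comm, Algebra.smul_def]; exact O.mul_mem _ _ (hk a) hx

theorem mem_Fil {j : ℤ} {x : F} : x ∈ Fil O hk z j ↔ z ^ (-j) * x ∈ O := Iff.rfl

include hzO in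
theorem Fil_anti (hz0 : z ≠ 0) {i j : ℤ} (hij : i ≤ j) : Fil O hk z j ≤ Fil O hk z i := by
  intro x hx
  rw [mem_Fil] at hx ⊢
  have h1 : z ^ (-i) * x = z ^ (j - i).toNat * (z ^ (-j) * x) := by
    rw [← zpow_natCast, Int.toNat_of_nonneg (by omega), ← mul_assoc, ← zpow_add₀ hz0]
    congr 2
    ring
  rw [h1]
  exact O.mul_mem _ _ (O.toSubring.pow_mem hzO _) hx

theorem Fil_mul {j : ℤ} {x w : F} (hx : x ∈ Fil O hk z j) (hw : w ∈ O) :
    x * w ∈ Fil O hk z j := by
  rw [mem_Fil] at hx ⊢
  rw [← mul_assoc]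
  exact O.mul_mem _ _ hx hw

include hzO hzi in
theorem Fil_out (hz : Transcendental k z) [Algebra.IsAlgebraic k⟮z⟯ F] {x : F} (hx : x ≠ 0) :
    ∃ j : ℤ, x ∉ Fil O hk z j := by
  have hz0 : z ≠ 0 := by
    rintro rfl
    exact hz isAlgebraic_zero
  obtain ⟨m, hm⟩ := exists_pow_mul_mem O hk hzO hzi hz x⁻¹
  refine ⟨m + 1, fun h => hzi ?_⟩
  rw [mem_Fil] at h
  have h1 := O.mul_mem _ _ hm h
  have h2 : z ^ m * x⁻¹ * (z ^ (-((m : ℤ) + 1)) * x) = z⁻¹ := by
    rw [neg_add, zpow_add₀ hz0, zpow_neg, zpow_natCast, zpow_neg_one]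
    field_simp
  rwa [h2] at h1

include hk hzO hzi in
theorem indep_of_mod (hz : Transcendental k z) {ι : Type*} [Fintype ι] (b : ι → F)
    (hb : ∀ i, b i ∈ O)
    (h : ∀ c : ι → k, z⁻¹ * ∑ i, algebraMap k F (c i) * b i ∈ O → ∀ i, c i = 0) :
    LinearIndependent k⟮z⟯ b := by
  have hz0 : z ≠ 0 := by
    rintro rfl
    exact hz isAlgebraic_zero
  have key : ∀ m : ℕ, ∀ p : ι → k[X], ∑ i, aeval z (p i) * b i = 0 → ∀ i, (p i).coeff m = 0 := by
    have h0 : ∀ p : ι → k[X], ∑ i, aeval z (p i) * b i = 0 → ∀ i, (p i).coeff 0 = 0 := by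
      intro p hp
      apply h
      have h1 : ∑ i, algebraMap k F ((p i).coeff 0) * b i = - (z * ∑ i, aeval z (p i).divX * b i)
          := by
        rw [eq_neg_iff_add_eq_zero, Finset.mul_sum, ← Finset.sum_add_distrib, ← hp]
        refine Finset.sum_congr rfl fun i _ => ?_
        have := congrArg (aeval z) (X_mul_divX_add (p i))
        simp only [map_add, map_mul, aeval_X, aeval_C] at this
        rw [← this]
        ring
      rw [h1, mul_neg, ← mul_assoc, inv_mul_cancel₀ hz0, one_mul]
      exact O.neg_mem _ (Subring.sum_mem O.toSubring fun i _ =>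
        O.mul_mem _ _ (aeval_mem O hk hzO _) (hb i))
    intro m
    induction m with
    | zero => exact h0
    | succ m ih =>
      intro p hp i
      have h1 : ∑ i, aeval z ((fun i => (p i).divX) i) * b i = 0 := by
        have h2 : z * ∑ i, aeval z (p i).divX * b i = 0 := by
          rw [Finset.mul_sum, ← hp]
          refine Finset.sum_congr rfl fun i _ => ?_
          have := congrArg (aeval z) (X_mul_divX_add (p i))
          simp only [map_mul, aeval_X, h0 p hp i, map_zero, add_zero] at this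
          rw [← this]
          ring
        exact (mul_eq_zero.1 h2).resolve_left hz0
      have h3 := ih _ h1 i
      rwa [coeff_divX] at h3
  have h1 : LinearIndependent (Algebra.adjoin k {z}) b := by
    rw [Fintype.linearIndependent_iff]
    intro g hg i
    have hg2 : ∀ i, ∃ p : k[X], aeval z p = (g i : F) := by
      intro i
      obtain ⟨u, hu⟩ := g i
      rw [Algebra.adjoin_singleton_eq_range_aeval] at hu
      exact hu
    choose p hp using hg2
    have h2 : ∑ i, aeval z (p i) * b i = 0 := by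
      rw [← hg]
      refine Finset.sum_congr rfl fun i _ => ?_
      rw [hp i]
      rfl
    have h3 : p i = 0 := by
      ext m
      rw [key m p h2 i, coeff_zero]
    apply Subtype.ext
    rw [← hp i, h3, map_zero]
    rfl
  exact (LinearIndependent.iff_fractionRing (Algebra.adjoin k {z}) k⟮z⟯).1 h1

include hzO hzi in
theorem finrank_Fil (hz : Transcendental k z) [FiniteDimensional k⟮z⟯ F] (X : Submodule k F)
    [FiniteDimensional k X] (j : ℤ) :
    finrank k (X ⊓ Fil O hk z j : Submodule k F) ≤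
      finrank k (X ⊓ Fil O hk z (j + 1) : Submodule k F) + finrank k⟮z⟯ F := by
  have hz0 : z ≠ 0 := by
    rintro rfl
    exact hz isAlgebraic_zero
  set A := X ⊓ Fil O hk z (j + 1) with hA
  set B := X ⊓ Fil O hk z j with hB
  have hAB : A ≤ B := inf_le_inf le_rfl (Fil_anti O hk hzO hz0 (by omega))
  have hBfd : FiniteDimensional k B := Submodule.finiteDimensional_of_le (inf_le_left : B ≤ X)
  have hAfd : FiniteDimensional k A := Submodule.finiteDimensional_of_le hAB
  obtain ⟨D, hD⟩ := Submodule.exists_isCompl A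
  set C := B ⊓ D with hC
  have hCfd : FiniteDimensional k C := Submodule.finiteDimensional_of_le (inf_le_left : C ≤ B)
  have h1 : A ⊔ C = B := by
    rw [hC, inf_comm, ← sup_inf_assoc_of_le D hAB, hD.sup_eq_top, top_inf_eq]
  have h2 : A ⊓ C = ⊥ := by
    rw [eq_bot_iff, ← hD.inf_eq_bot]
    exact inf_le_inf le_rfl inf_le_right
  have h3 : finrank k B = finrank k A + finrank k C := by
    have := Submodule.finrank_sup_add_finrank_inf_eq A C
    rw [h1, h2, finrank_bot, add_zero] at this
    exact this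
  obtain ⟨m, hm⟩ : ∃ m, m = finrank k C := ⟨_, rfl⟩
  let bb : Basis (Fin m) k C := finBasisOfFinrankEq k C hm.symm
  have hbX : ∀ i, ((bb i : C) : F) ∈ X := fun i => (bb i).2.1.1
  have hbF : ∀ i, ((bb i : C) : F) ∈ Fil O hk z j := fun i => (bb i).2.1.2
  have hbD : ∀ i, ((bb i : C) : F) ∈ D := fun i => (bb i).2.2
  have h4 : LinearIndependent k⟮z⟯ (fun i => z ^ (-j) * ((bb i : C) : F)) := by
    apply indep_of_mod O hk hzO hzi hz
    · exact hbF
    · intro c hc
      have e1 : z⁻¹ * ∑ i, algebraMap k F (c i) * (z ^ (-j) * ((bb i : C) : F)) =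
          z ^ (-(j + 1)) * ∑ i, c i • ((bb i : C) : F) := by
        rw [neg_add, zpow_add₀ hz0, zpow_neg_one, mul_comm (z ^ (-j)), mul_assoc]
        congr 1
        rw [Finset.mul_sum]
        refine Finset.sum_congr rfl fun i _ => ?_
        rw [Algebra.smul_def]
        ring
      rw [e1] at hc
      have h5 : ∑ i, c i • ((bb i : C) : F) ∈ A :=
        ⟨Submodule.sum_mem X fun i _ => X.smul_mem _ (hbX i), hc⟩
      have h6 : ∑ i, c i • ((bb i : C) : F) ∈ D :=
        Submodule.sum_mem D fun i _ => D.smul_mem _ (hbD i)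
      have h7 : ∑ i, c i • ((bb i : C) : F) = 0 := by
        have : ∑ i, c i • ((bb i : C) : F) ∈ A ⊓ D := ⟨h5, h6⟩
        rwa [hD.inf_eq_bot, Submodule.mem_bot] at this
      have h8 : LinearIndependent k (fun i => ((bb i : C) : F)) :=
        bb.linearIndependent.map' C.subtype (Submodule.ker_subtype C)
      exact Fintype.linearIndependent_iff.1 h8 c h7
  have h5 := h4.fintype_card_le_finrank
  rw [Fintype.card_fin] at h5
  omega

end

/-- a nonzero finite-dimensional space has an element dividing all the others -/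
theorem exists_min (O : ValuationSubring F) (hk : ∀ a : k, algebraMap k F a ∈ O)
    (W : Submodule k F) [FiniteDimensional k W] (hW : W ≠ ⊥) :
    ∃ w0 ∈ W, w0 ≠ 0 ∧ ∀ w ∈ W, w0⁻¹ * w ∈ O := by
  classical
  obtain ⟨m, hm⟩ : ∃ m, m = finrank k W := ⟨_, rfl⟩
  let bb : Basis (Fin m) k W := finBasisOfFinrankEq k W hm.symm
  have hm0 : 0 < m := by
    rw [hm]
    have := Submodule.nontrivial_iff_ne_bot.2 hW
    exact Module.finrank_pos
  obtain ⟨i0, _, hi0⟩ := Finset.exists_max_image (Finset.univ : Finset (Fin m))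
    (fun i => O.valuation ((bb i : W) : F)) ⟨⟨0, hm0⟩, Finset.mem_univ _⟩
  have hb0 : ((bb i0 : W) : F) ≠ 0 := by
    intro h
    exact bb.ne_zero i0 (Subtype.ext h)
  refine ⟨(bb i0 : W), (bb i0).2, hb0, ?_⟩
  intro w hw
  have h1 : (w : F) = ∑ i, (bb.repr ⟨w, hw⟩ i) • ((bb i : W) : F) := by
    have := congrArg (fun x : W => (x : F)) (bb.sum_repr ⟨w, hw⟩)
    simp only [Submodule.coe_sum, Submodule.coe_smul] at this
    exact this.symm
  rw [h1, Finset.mul_sum]
  refine Subring.sum_mem O.toSubring fun i _ => ?_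
  rw [Algebra.smul_def]
  have h2 : ((bb i0 : W) : F)⁻¹ * ((bb i : W) : F) ∈ O := by
    rw [← O.valuation_le_one_iff, map_mul, map_inv₀]
    have h3 := hi0 i (Finset.mem_univ _)
    have h4 : O.valuation ((bb i0 : W) : F) ≠ 0 := (O.valuation.ne_zero_iff).2 hb0
    rw [inv_mul_le_iff₀ (zero_lt_iff.2 h4), mul_one]
    exact h3
  have h5 : ((bb i0 : W) : F)⁻¹ * (algebraMap k F (bb.repr ⟨w, hw⟩ i) * ((bb i : W) : F)) =
      algebraMap k F (bb.repr ⟨w, hw⟩ i) * (((bb i0 : W) : F)⁻¹ * ((bb i : W) : F)) := by ring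
  rw [h5]
  exact O.mul_mem _ _ (hk _) h2

theorem exists_sub (X : Submodule k F) [FiniteDimensional k X] {s : ℕ} (hs : s ≤ finrank k X) :
    ∃ Y ≤ X, finrank k Y = s := by
  obtain ⟨m, hm⟩ : ∃ m, m = finrank k X := ⟨_, rfl⟩
  let bb : Basis (Fin m) k X := finBasisOfFinrankEq k X hm.symm
  have hsm : s ≤ m := by omega
  let f : Fin s → F := fun i => ((bb (Fin.castLE hsm i) : X) : F)
  have hf : LinearIndependent k f := by
    have h1 : LinearIndependent k (fun i => ((bb i : X) : F)) :=
      bb.linearIndependent.map' X.subtype (Submodule.ker_subtype X)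
    exact h1.comp _ (Fin.castLE_injective hsm)
  refine ⟨Submodule.span k (Set.range f), ?_, ?_⟩
  · rw [Submodule.span_le]
    rintro x ⟨i, rfl⟩
    exact (bb (Fin.castLE hsm i)).2
  · rw [finrank_span_eq_card hf, Fintype.card_fin]

/-- **Growth of products.** -/
theorem grow {z : F} (hz : Transcendental k z) [FiniteDimensional k⟮z⟯ F] (X W : Submodule k F)
    [FiniteDimensional k X] [FiniteDimensional k W] (hW : W ≠ ⊥) (s : ℕ) (hs : s ≤ finrank k X) :
    ∃ Y ≤ X, finrank k Y = s ∧
      finrank k (Y * W : Submodule k F) + finrank k X + 1 ≤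
        finrank k (X * W : Submodule k F) + s + finrank k⟮z⟯ F := by
  have hz0 : z ≠ 0 := by
    rintro rfl
    exact hz isAlgebraic_zero
  obtain ⟨O, hk, hzO, hzi⟩ := exists_place hz
  obtain ⟨w0, hw0W, hw0, hw0O⟩ := exists_min O hk W hW
  have hn : 1 ≤ finrank k⟮z⟯ F := finrank_pos
  have hXWfd : FiniteDimensional k (X * W : Submodule k F) :=
    Module.Finite.iff_fg.2 (Submodule.FG.mul (Module.Finite.iff_fg.1 inferInstance)
      (Module.Finite.iff_fg.1 inferInstance))
  let T : F →ₗ[k] F := LinearMap.mulLeft k w0⁻¹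
  have hTinj : Function.Injective T := mul_right_injective₀ (inv_ne_zero hw0)
  set E := (X * W).map T with hE
  have hEfr : finrank k E = finrank k (X * W : Submodule k F) :=
    (Submodule.equivMapOfInjective T hTinj (X * W)).finrank_eq.symm
  have hEfd : FiniteDimensional k E := by rw [hE]; infer_instance
  have hXE : X ≤ E := by
    intro x hx
    refine ⟨x * w0, Submodule.mul_mem_mul hx hw0W, ?_⟩
    show w0⁻¹ * (x * w0) = x
    field_simp
  -- large and small `j`
  have hlow : ∃ j : ℤ, X ≤ Fil O hk z j := by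
    obtain ⟨m, hm⟩ : ∃ m, m = finrank k X := ⟨_, rfl⟩
    let bb : Basis (Fin m) k X := finBasisOfFinrankEq k X hm.symm
    choose e he using fun i : Fin m => exists_pow_mul_mem O hk hzO hzi hz ((bb i : X) : F)
    refine ⟨-((∑ i, e i : ℕ) : ℤ), ?_⟩
    intro x hx
    have h1 : (x : F) = ∑ i, (bb.repr ⟨x, hx⟩ i) • ((bb i : X) : F) := by
      have := congrArg (fun x : X => (x : F)) (bb.sum_repr ⟨x, hx⟩)
      simp only [Submodule.coe_sum, Submodule.coe_smul] at this
      exact this.symm
    rw [h1]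
    refine Submodule.sum_mem _ fun i _ => Submodule.smul_mem _ _ ?_
    apply Fil_anti O hk hzO hz0 (j := -(e i : ℤ))
    · have := Finset.single_le_sum (f := e) (fun i _ => Nat.zero_le _) (Finset.mem_univ i)
      omega
    · rw [mem_Fil, neg_neg, zpow_natCast]
      exact he i
  have hhigh : ∃ j : ℤ, X ⊓ Fil O hk z j = ⊥ := by
    by_contra hcon
    push Not at hcon
    have h1 : ∀ m : ℕ, ∃ j : ℤ, finrank k (X ⊓ Fil O hk z j : Submodule k F) + m ≤ finrank k X := by
      intro m
      induction m with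
      | zero => exact ⟨0, Submodule.finrank_mono inf_le_left⟩
      | succ m ih =>
        obtain ⟨j, hj⟩ := ih
        obtain ⟨x, hx, hx0⟩ := (Submodule.ne_bot_iff _).1 (hcon j)
        obtain ⟨i, hi⟩ := Fil_out O hk hzO hzi hz hx0
        have h2 : ¬ (x ∈ Fil O hk z (max i j)) := fun h =>
          hi (Fil_anti O hk hzO hz0 (le_max_left _ _) h)
        have h3 : X ⊓ Fil O hk z (max i j) < X ⊓ Fil O hk z j := by
          refine lt_of_le_of_ne (inf_le_inf le_rfl (Fil_anti O hk hzO hz0 (le_max_right _ _))) ?_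
          intro h
          rw [← h] at hx
          exact h2 hx.2
        have h4 := Submodule.finrank_lt_finrank_of_lt h3
        exact ⟨max i j, by omega⟩
    obtain ⟨j, hj⟩ := h1 (finrank k X + 1)
    omega
  rcases Nat.eq_zero_or_pos s with rfl | hs0
  · refine ⟨⊥, bot_le, finrank_bot k F, ?_⟩
    rw [Submodule.bot_mul, finrank_bot]
    have := Submodule.finrank_mono hXE
    omega
  · obtain ⟨a, ha⟩ := hlow
    obtain ⟨b, hb⟩ := hhigh
    -- the last `j` with enough dimension
    obtain ⟨j, hj1, hj2⟩ : ∃ j : ℤ, s ≤ finrank k (X ⊓ Fil O hk z j : Submodule k F) ∧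
        finrank k (X ⊓ Fil O hk z (j + 1) : Submodule k F) < s := by
      by_contra hcon
      push Not at hcon
      have h1 : ∀ m : ℕ, s ≤ finrank k (X ⊓ Fil O hk z (a + m) : Submodule k F) := by
        intro m
        induction m with
        | zero =>
          rw [Nat.cast_zero, add_zero, inf_eq_left.2 ha]
          exact hs
        | succ m ih =>
          have := hcon _ ih
          rwa [add_assoc] at this
      have h2 := h1 (b - a).toNat
      have h3 : X ⊓ Fil O hk z (a + (b - a).toNat) ≤ X ⊓ Fil O hk z b :=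
        inf_le_inf le_rfl (Fil_anti O hk hzO hz0 (by omega))
      rw [hb] at h3
      rw [le_bot_iff.1 h3, finrank_bot] at h2
      omega
    have h5 := finrank_Fil O hk hzO hzi hz X j
    have hfd : FiniteDimensional k (X ⊓ Fil O hk z j : Submodule k F) :=
      Submodule.finiteDimensional_of_le inf_le_left
    obtain ⟨Y, hY1, hY2⟩ := exists_sub (X ⊓ Fil O hk z j) hj1
    refine ⟨Y, hY1.trans inf_le_left, hY2, ?_⟩
    have hYfd : FiniteDimensional k Y := Submodule.finiteDimensional_of_le hY1
    have h6 : (Y * W).map T ≤ E ⊓ Fil O hk z j := by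
      refine le_inf (Submodule.map_mono (mul_le_mul' (hY1.trans inf_le_left) le_rfl)) ?_
      rw [Submodule.map_le_iff_le_comap, Submodule.mul_le]
      intro y hy w hw
      rw [Submodule.mem_comap]
      show w0⁻¹ * (y * w) ∈ Fil O hk z j
      have : w0⁻¹ * (y * w) = y * (w0⁻¹ * w) := by ring
      rw [this]
      exact Fil_mul O hk (hY1 hy).2 (hw0O w hw)
    have h7 : finrank k (Y * W : Submodule k F) ≤ finrank k (E ⊓ Fil O hk z j : Submodule k F) := by
      have e1 : finrank k ((Y * W).map T) = finrank k (Y * W : Submodule k F) :=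
        (Submodule.equivMapOfInjective T hTinj (Y * W)).finrank_eq.symm
      rw [← e1]
      have : FiniteDimensional k (E ⊓ Fil O hk z j : Submodule k F) :=
        Submodule.finiteDimensional_of_le inf_le_left
      exact Submodule.finrank_mono h6
    have h8 : finrank k (E ⊓ Fil O hk z j : Submodule k F) + finrank k X ≤
        finrank k E + finrank k (X ⊓ Fil O hk z j : Submodule k F) := by
      have hfd2 : FiniteDimensional k (E ⊓ Fil O hk z j : Submodule k F) :=
        Submodule.finiteDimensional_of_le inf_le_left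
      have e1 := Submodule.finrank_sup_add_finrank_inf_eq (E ⊓ Fil O hk z j) X
      have e2 : E ⊓ Fil O hk z j ⊓ X = X ⊓ Fil O hk z j := by
        rw [inf_right_comm, inf_eq_right.2 hXE]
      rw [e2] at e1
      have e3 : finrank k (E ⊓ Fil O hk z j ⊔ X : Submodule k F) ≤ finrank k E :=
        Submodule.finrank_mono (sup_le inf_le_left hXE)
      omega
    omega

end Pool.Agent.W243.TD
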