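import Pool.Agent.W85.TD.Pig
import Pool.Agent.W337.TD.Coef
import Pool.Agent.W636.TD.Constr
import Pool.Agent.W975.TD.Rep
import Pool.Agent.W398.TD.AuxA
import Pool.Agent.W689.TD.Obs
import Pool.Agent.W729.TD.Ineq1
import Pool.Agent.W176.TD.Ineq0
import Pool.Agent.W261.TD.G0
import Pool.Agent.W216.TD.Lan
import Pool.Agent.W261.TD.Step1
import Pool.Agent.W154.TD.Step2
import Pool.Agent.W64.TD.Ind
import Pool.Agent.W214.TD.Prod
import Pool.Agent.W410.TD.Fam

/-!
# The linear subgroup theorem in transcendence degree one: assembly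

`K` is a field whose elements are algebraic over `ℚ(θ)`, `V ⊆ K ^ d` a subspace of dimension `r`
without nonzero rational vectors. `gen1`: at most `r (r + 1)` points `z ∈ V` with `e ^ z` algebraic
over `ℚ(θ)` are linearly independent over `ℚ`. `gen2`: at most `2 r (r + 1)` points with
`e ^ (L z)` algebraic over `ℚ(θ)`, `L ≠ 0` arbitrary.
-/

set_option autoImplicit false

namespace Pool.Agent.W243.TD

open Module

theorem aux : S_aux := Pool.Agent.W398.TD.main
  (Pool.Agent.W636.TD.constr Pool.Agent.W85.TD.pig Pool.Agent.W337.TD.coef_bound)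
  Pool.Agent.W975.TD.rep

theorem obs : S_obs := Pool.Agent.W689.TD.obs aux

/-- **Linear subgroup theorem in transcendence degree one.** -/
theorem gen1 : S_gen 1 1 :=
  Pool.Agent.W64.TD.main 1 1 (Pool.Agent.W261.TD.step1 (Pool.Agent.W729.TD.ineq1 obs)
    Pool.Agent.W261.TD.g0 Pool.Agent.W216.TD.lan)

/-- **The same with an arbitrary multiplier.** -/
theorem gen2 (L : ℂ) (hL : L ≠ 0) : S_gen 2 L :=
  Pool.Agent.W64.TD.main 2 L (Pool.Agent.W154.TD.step2 (Pool.Agent.W176.TD.ineq0 obs)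
    Pool.Agent.W261.TD.g0 L hL)

/-- product inequality -/
theorem prod1 {θ : ℂ} (hθ : Transcendental ℚ θ) (X W Y : Submodule ℚ ℂ)
    [FiniteDimensional ℚ X] [FiniteDimensional ℚ W] [FiniteDimensional ℚ Y]
    (h1 : ∀ z ∈ W, Al θ z) (h2 : ∀ z ∈ W, Al θ (Complex.exp z))
    (h3 : ∀ x ∈ X, ∀ z ∈ W, x * z ∈ Y) :
    finrank ℚ X * finrank ℚ W ≤ finrank ℚ Y + finrank ℚ X * (finrank ℚ X - 1) := by
  have h := Pool.Agent.W214.TD.prod 1 1 gen1 θ hθ X W Y h1
    (fun z hz => by rw [one_mul]; exact h2 z hz) h3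
  rwa [one_mul] at h

/-- product inequality with a multiplier -/
theorem prod2 {θ L : ℂ} (hθ : Transcendental ℚ θ) (hL : L ≠ 0) (X W Y : Submodule ℚ ℂ)
    [FiniteDimensional ℚ X] [FiniteDimensional ℚ W] [FiniteDimensional ℚ Y]
    (h1 : ∀ z ∈ W, Al θ z) (h2 : ∀ z ∈ W, Al θ (Complex.exp (L * z)))
    (h3 : ∀ x ∈ X, ∀ z ∈ W, x * z ∈ Y) :
    finrank ℚ X * finrank ℚ W ≤ finrank ℚ Y + 2 * (finrank ℚ X * (finrank ℚ X - 1)) :=
  Pool.Agent.W214.TD.prod 2 L (gen2 L hL) θ hθ X W Y h1 h2 h3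

theorem fam1 : S_fam1 := Pool.Agent.W410.TD.fam1 Pool.Agent.W214.TD.prod gen1

theorem fam2 : S_fam2 := Pool.Agent.W410.TD.fam2 Pool.Agent.W214.TD.prod gen2

end Pool.Agent.W243.TD
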