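import Pool.Agent.W243.TD.Trdeg

/-!
# Exponentials of rational functions of bounded degree
-/

set_option autoImplicit false

namespace Pool.Agent.W243.TD

open Module IntermediateField Polynomial

/-- the degree of `ℚ(t)` over `ℚ(P(t)/Q(t))` -/
theorem finrank_ratfun {F : IntermediateField ℚ ℂ} {t z : F} (hF : ∀ x : F, x ∈ ℚ⟮t⟯)
    (hz : Transcendental ℚ z) {P Q : ℚ[X]} {D : ℕ} (hP : P.natDegree ≤ D) (hQ : Q.natDegree ≤ D)
    (hQt : aeval t Q ≠ 0) (h : z * aeval t Q = aeval t P) :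
    FiniteDimensional ℚ⟮z⟯ F ∧ finrank ℚ⟮z⟯ F ≤ D := by
  have hQ0 : Q ≠ 0 := by
    rintro rfl
    simp at hQt
  let zz : ℚ⟮z⟯ := ⟨z, mem_adjoin_simple_self ℚ z⟩
  let R : (ℚ⟮z⟯)[X] := C zz * Q.map (algebraMap ℚ ℚ⟮z⟯) - P.map (algebraMap ℚ ℚ⟮z⟯)
  have hR0 : R ≠ 0 := by
    intro h0
    -- compare the coefficients at the leading term of `Q`
    have h1 := congrArg (fun p => p.coeff Q.natDegree) h0
    simp only [R, coeff_sub, coeff_C_mul, coeff_map, coeff_zero, coeff_natDegree] at h1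
    have h2 : z * algebraMap ℚ F Q.leadingCoeff = algebraMap ℚ F (P.coeff Q.natDegree) := by
      have := congrArg (fun x : ℚ⟮z⟯ => (x : F)) (sub_eq_zero.1 h1)
      simpa [zz] using this
    apply hz
    have h3 : z = algebraMap ℚ F (P.coeff Q.natDegree / Q.leadingCoeff) := by
      rw [map_div₀, ← h2, mul_div_assoc, div_self, mul_one]
      rw [Ne, map_eq_zero]
      exact leadingCoeff_ne_zero.2 hQ0
    rw [h3]
    exact isAlgebraic_algebraMap _
  have hRt : aeval t R = 0 := by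
    simp only [R, map_sub, map_mul, aeval_C, aeval_map_algebraMap]
    rw [sub_eq_zero]
    exact h
  have hRd : R.natDegree ≤ D := by
    refine (natDegree_sub_le _ _).trans (max_le ?_ ?_)
    · exact (natDegree_C_mul_le _ _).trans ((natDegree_map_le).trans hQ)
    · exact natDegree_map_le.trans hP
  have hint : IsIntegral ℚ⟮z⟯ t := (IsAlgebraic.isIntegral ⟨R, hR0, hRt⟩)
  have htop : (ℚ⟮z⟯)⟮t⟯ = (⊤ : IntermediateField ℚ⟮z⟯ F) := by
    rw [eq_top_iff]
    intro x _
    have hx := hF x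
    have h2 : ℚ⟮t⟯ ≤ ((ℚ⟮z⟯)⟮t⟯).restrictScalars ℚ := by
      rw [adjoin_simple_le_iff]
      exact mem_adjoin_simple_self (ℚ⟮z⟯) t
    exact h2 hx
  have hfin : FiniteDimensional ℚ⟮z⟯ F := by
    have h3 : FiniteDimensional ℚ⟮z⟯ (ℚ⟮z⟯)⟮t⟯ := adjoin.finiteDimensional hint
    rw [htop] at h3
    exact Module.Finite.equiv (topEquiv (F := ℚ⟮z⟯) (E := F)).toLinearEquiv
  refine ⟨hfin, ?_⟩
  have h4 : finrank ℚ⟮z⟯ (ℚ⟮z⟯)⟮t⟯ = (minpoly ℚ⟮z⟯ t).natDegree := adjoin.finrank hint
  rw [htop, finrank_top'] at h4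
  rw [h4]
  exact (natDegree_le_of_dvd (minpoly.dvd _ _ hRt) hR0).trans hRd

/-- a value `P(t)/Q(t)` at a transcendental `t` is rational or transcendental -/
theorem rational_or_tr {E : Type*} [Field E] [CharZero E] {t z : E} (ht : Transcendental ℚ t)
    {P Q : ℚ[X]} (hQ : Q ≠ 0) (h : z * aeval t Q = aeval t P) (hz : IsAlgebraic ℚ z) :
    ∃ q : ℚ, z = algebraMap ℚ E q := by
  let zz : ℚ⟮z⟯ := ⟨z, mem_adjoin_simple_self ℚ z⟩
  have halg : Algebra.IsAlgebraic ℚ ℚ⟮z⟯ := by
    have := adjoin.finiteDimensional hz.isIntegral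
    exact Algebra.IsAlgebraic.of_finite ℚ ℚ⟮z⟯
  have ht2 : Transcendental ℚ⟮z⟯ t := fun h => ht (h.restrictScalars ℚ)
  let R : (ℚ⟮z⟯)[X] := C zz * Q.map (algebraMap ℚ ℚ⟮z⟯) - P.map (algebraMap ℚ ℚ⟮z⟯)
  have hR : aeval t R = 0 := by
    simp only [R, map_sub, map_mul, aeval_C, aeval_map_algebraMap]
    rw [sub_eq_zero]
    exact h
  have hR0 : R = 0 := by
    by_contra h0
    exact ht2 ⟨R, h0, hR⟩
  have h1 := congrArg (fun p => p.coeff Q.natDegree) hR0
  simp only [R, coeff_sub, coeff_C_mul, coeff_map, coeff_zero, coeff_natDegree] at h1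
  have h2 : z * algebraMap ℚ E Q.leadingCoeff = algebraMap ℚ E (P.coeff Q.natDegree) := by
    have := congrArg (fun x : ℚ⟮z⟯ => (x : E)) (sub_eq_zero.1 h1)
    simpa [zz] using this
  refine ⟨P.coeff Q.natDegree / Q.leadingCoeff, ?_⟩
  rw [map_div₀, ← h2, mul_div_assoc, div_self, mul_one]
  rw [Ne, map_eq_zero]
  exact leadingCoeff_ne_zero.2 hQ

/-- **Exponentials of rational functions of degree at most `D`.** -/
theorem rat_list {t y : ℂ} (ht : Transcendental ℚ t) (hy : y ≠ 0) {N D : ℕ} (P Q : Fin N → ℚ[X])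
    (hP : ∀ i, (P i).natDegree ≤ D) (hQ : ∀ i, (Q i).natDegree ≤ D) (hQ0 : ∀ i, Q i ≠ 0)
    (hnc : ∀ i, ∀ q : ℚ, aeval t (P i) / aeval t (Q i) ≠ (q : ℂ))
    (hli : LinearIndependent ℚ (fun i => aeval t (P i) / aeval t (Q i)))
    (he : ∀ i, Al t (Complex.exp (y * (aeval t (P i) / aeval t (Q i))))) :
    N ≤ 8 * D - 2 ∧ (Al t y → N ≤ 4 * D) := by
  classical
  let F : IntermediateField ℚ ℂ := adjoin ℚ {t}
  let tt : F := ⟨t, mem_adjoin_simple_self ℚ t⟩
  have haev : ∀ R : ℚ[X], ((aeval tt R : F) : ℂ) = aeval t R := by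
    intro R
    exact (aeval_algebraMap_apply ℂ tt R).symm
  have hQt : ∀ i, aeval tt (Q i) ≠ 0 := by
    intro i h
    have h1 := congrArg (fun x : F => (x : ℂ)) h
    simp only [haev] at h1
    exact ht ⟨Q i, hQ0 i, h1⟩
  let z : Fin N → F := fun i => aeval tt (P i) / aeval tt (Q i)
  have hz : ∀ i, ((z i : F) : ℂ) = aeval t (P i) / aeval t (Q i) := by
    intro i
    show ((aeval tt (P i) / aeval tt (Q i) : F) : ℂ) = _
    push_cast
    rw [haev, haev]
  have htt : Transcendental ℚ tt := by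
    intro h
    exact ht (h.algebraMap (A := ℂ))
  have hF : ∀ x : F, x ∈ ℚ⟮tt⟯ := by
    intro x
    have h1 : (x : ℂ) ∈ adjoin ℚ {t} := x.2
    have h2 : adjoin ℚ {t} ≤ (ℚ⟮tt⟯ : IntermediateField ℚ F).map (F.val : F →ₐ[ℚ] ℂ) := by
      rw [adjoin_simple_le_iff]
      exact ⟨tt, mem_adjoin_simple_self ℚ tt, rfl⟩
    obtain ⟨w, hw, hwx⟩ := h2 h1
    have : w = x := Subtype.ext hwx
    rwa [← this]
  have hztr : ∀ i, Transcendental ℚ (z i) := by
    intro i h
    obtain ⟨q, hq⟩ := rational_or_tr htt (hQ0 i) (z := z i) (P := P i) (by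
      show aeval tt (P i) / aeval tt (Q i) * aeval tt (Q i) = _
      rw [div_mul_cancel₀ _ (hQt i)]) h
    apply hnc i q
    rw [← hz i, hq]
    simp
  have hdeg : ∀ i, FiniteDimensional ℚ⟮z i⟯ F ∧ finrank ℚ⟮z i⟯ F ≤ D := by
    intro i
    apply finrank_ratfun hF (hztr i) (hP i) (hQ i) (hQt i)
    show aeval tt (P i) / aeval tt (Q i) * aeval tt (Q i) = _
    rw [div_mul_cancel₀ _ (hQt i)]
  have hzli : LinearIndependent ℚ z := by
    have h1 : LinearIndependent ℚ (fun i => ((z i : F) : ℂ)) := by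
      have : (fun i => ((z i : F) : ℂ)) = (fun i => aeval t (P i) / aeval t (Q i)) :=
        funext hz
      rw [this]
      exact hli
    exact LinearIndependent.of_comp F.val.toLinearMap h1
  have htr : ¬ Algebra.IsAlgebraic ℚ F := fun h => htt (h.isAlgebraic tt)
  have hef : ∀ i, IsAlgebraic F (Complex.exp (y * z i)) := by
    intro i
    rw [hz i]
    exact he i
  have hsum : ∑ i, finrank ℚ⟮z i⟯ F ≤ N * D := by
    refine (Finset.sum_le_sum fun i _ => (hdeg i).2).trans ?_
    rw [Finset.sum_const, Finset.card_univ, Fintype.card_fin, smul_eq_mul]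
  rcases Nat.eq_zero_or_pos N with h0 | h0
  · subst h0
    exact ⟨Nat.zero_le _, fun _ => Nat.zero_le _⟩
  have h4 := (hdeg ⟨0, h0⟩).2
  refine ⟨?_, ?_⟩
  · have h2 := deg_L hy z hzli (fun i => (hdeg i).1) htr hef ⟨0, h0⟩
    have h5 : (N + 1) ^ 2 + 4 ≤ 8 * D * (N + 1) := by nlinarith
    have h6 : N + 1 < 8 * D := by
      by_contra hc
      push Not at hc
      have := Nat.mul_le_mul_right (N + 1) hc
      nlinarith
    omega
  · intro hyt
    have h3 := deg_1 hy z hzli (fun i => (hdeg i).1) htr hef hyt ⟨0, h0⟩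
    by_contra hc
    push Not at hc
    have h6 : N ^ 2 + 3 ≤ (N + 1) * (4 * D) := by nlinarith
    obtain ⟨u, rfl⟩ : ∃ u, N = u + 1 := ⟨N - 1, by omega⟩
    have h7 : 4 * D ≤ u := by omega
    have := Nat.mul_le_mul_left (u + 1 + 1) h7
    nlinarith

/-- **The same, constants allowed.** -/
theorem rat_list' {t y : ℂ} (ht : Transcendental ℚ t) (hy : y ≠ 0) {N D : ℕ} (hD : 1 ≤ D)
    (P Q : Fin N → ℚ[X])
    (hP : ∀ i, (P i).natDegree ≤ D) (hQ : ∀ i, (Q i).natDegree ≤ D) (hQ0 : ∀ i, Q i ≠ 0)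
    (hli : LinearIndependent ℚ (fun i => aeval t (P i) / aeval t (Q i)))
    (he : ∀ i, Al t (Complex.exp (y * (aeval t (P i) / aeval t (Q i))))) :
    N ≤ 8 * D - 2 ∧ (Al t y → N ≤ 4 * D) := by
  classical
  by_cases hnc : ∀ i, ∀ q : ℚ, aeval t (P i) / aeval t (Q i) ≠ (q : ℂ)
  · exact rat_list ht hy P Q hP hQ hQ0 hnc hli he
  push Not at hnc
  obtain ⟨i0, q0, hq0⟩ := hnc
  by_cases hN : N = 1
  · subst hN
    exact ⟨by omega, fun _ => by omega⟩
  have hN2 : 2 ≤ N := by
    have := i0.2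
    omega
  obtain ⟨j, hj⟩ : ∃ j : Fin N, j ≠ i0 := by
    by_cases h0 : i0 = ⟨0, by omega⟩
    · refine ⟨⟨1, by omega⟩, ?_⟩
      rw [h0]
      intro h
      have := congrArg Fin.val h
      simp at this
    · exact ⟨⟨0, by omega⟩, fun h => h0 h.symm⟩
  -- only one of the numbers is rational
  have hnc' : ∀ i, i ≠ i0 → ∀ q : ℚ, aeval t (P i) / aeval t (Q i) ≠ (q : ℂ) := by
    intro i hi q hq
    have h1 := Fintype.linearIndependent_iff.1 hli (fun k => if k = i then q0 else if k = i0 then -q else 0)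
      (by
        rw [← Finset.sum_subset (Finset.subset_univ {i, i0})]
        · rw [Finset.sum_pair hi]
          simp only [if_true, if_neg (Ne.symm hi)]
          rw [hq, hq0]
          simp only [Rat.smul_def]
          push_cast
          ring
        · intro k _ hk
          rw [Finset.mem_insert, Finset.mem_singleton, not_or] at hk
          rw [if_neg hk.1, if_neg hk.2, zero_smul])
    have h2 := h1 i
    rw [if_pos rfl] at h2
    have h3 := hli.ne_zero i0
    apply h3
    show aeval t (P i0) / aeval t (Q i0) = 0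
    rw [hq0, h2, Rat.cast_zero]
  have hQt : ∀ i, aeval t (Q i) ≠ 0 := fun i h => ht ⟨Q i, hQ0 i, h⟩
  let P' : Fin N → ℚ[X] := fun i => if i = i0 then P j + C q0 * Q j else P i
  let Q' : Fin N → ℚ[X] := fun i => if i = i0 then Q j else Q i
  have hz0 : aeval t (P' i0) / aeval t (Q' i0) =
      aeval t (P i0) / aeval t (Q i0) + aeval t (P j) / aeval t (Q j) := by
    simp only [P', Q', if_true]
    rw [hq0, map_add, map_mul, aeval_C, add_div, mul_div_assoc, div_self (hQt j), mul_one]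
    simp [add_comm]
  have hzi : ∀ i, i ≠ i0 → aeval t (P' i) / aeval t (Q' i) = aeval t (P i) / aeval t (Q i) := by
    intro i hi
    simp only [P', Q', if_neg hi]
  refine rat_list ht hy P' Q' ?_ ?_ ?_ ?_ ?_ ?_
  · intro i
    by_cases hi : i = i0
    · simp only [P', if_pos hi]
      refine (natDegree_add_le _ _).trans (max_le (hP j) ?_)
      exact (natDegree_C_mul_le _ _).trans (hQ j)
    · simp only [P', if_neg hi]
      exact hP i
  · intro i
    by_cases hi : i = i0
    · simp only [Q', if_pos hi]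
      exact hQ j
    · simp only [Q', if_neg hi]
      exact hQ i
  · intro i
    by_cases hi : i = i0
    · simp only [Q', if_pos hi]
      exact hQ0 j
    · simp only [Q', if_neg hi]
      exact hQ0 i
  · intro i q h
    by_cases hi : i = i0
    · subst hi
      rw [hz0, hq0] at h
      apply hnc' j hj (q - q0)
      push_cast
      rw [← h]
      ring
    · rw [hzi i hi] at h
      exact hnc' i hi q h
  · have h1 := (linearIndependent_add_smul_iff
      (v := fun i => aeval t (P i) / aeval t (Q i)) (c := fun k => if k = i0 then (1 : ℚ) else 0)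
      (i := j) (by simp [hj])).2 hli
    have h2 : (fun i => aeval t (P' i) / aeval t (Q' i)) =
        (fun i => aeval t (P i) / aeval t (Q i)) +
          ((fun k => if k = i0 then (1 : ℚ) else 0) · • (aeval t (P j) / aeval t (Q j))) := by
      funext k
      by_cases hk : k = i0
      · subst hk
        rw [hz0]
        simp
      · rw [hzi k hk]
        simp [hk]
    rw [h2]
    exact h1
  · intro i
    by_cases hi : i = i0
    · subst hi
      rw [hz0, mul_add, Complex.exp_add]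
      exact (he i).mul (he j)
    · rw [hzi i hi]
      exact he i

end Pool.Agent.W243.TD
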