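import Pool.Agent.W252.GelSiegel
import Pool.Agent.H301R2.TR.GenMain
import Pool.Agent.H335R2.Obs.LinAlg2

/-!
# The linear subgroup theorem in transcendence degree one: statements of the parts

`θ` is a transcendental number, `Al θ z` says that `z` is algebraic over `ℚ(θ)`.
-/

set_option autoImplicit false

namespace Pool.Agent.W243.TD

open Polynomial Finset Module
open Pool.Agent.H301R2.TR (JG LamC LamF coef entG E1)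
open Pool.Agent.W252 (RD)
open Pool.Agent.H335R2.Obs (kSpan)

/-- `z` is algebraic over `ℚ(θ)` -/
def Al (θ z : ℂ) : Prop := IsAlgebraic (IntermediateField.adjoin ℚ {θ}) z

/-- pigeonhole principle for complex linear forms with coefficients bounded by `1` -/
def S_pig : Prop := ∀ (C J : Type) [Fintype C] [Fintype J] (a : C → J → ℂ) (X E : ℕ),
  (∀ q j, ‖a q j‖ ≤ 1) → 1 ≤ X → 1 ≤ E →
  (2 * (Fintype.card J * X * E) + 1) ^ (2 * Fintype.card C) < (X + 1) ^ Fintype.card J →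
  ∃ p : J → ℤ, p ≠ 0 ∧ (∀ j, |p j| ≤ X) ∧ ∀ q, ‖∑ j, a q j * (p j : ℂ)‖ ≤ 2 / E

/-- bound for the Taylor coefficients of `z^k e^{az}` (same proof as `term_bound`) -/
def S_coef : Prop := ∀ (a : ℂ) (k q T H : ℕ) (X W Y : ℝ), 1 ≤ X → 1 ≤ W → ‖a‖ ≤ X → X * W ≤ Y →
  k + T ≤ H → ‖coef a k q‖ * (((q : ℝ) + 1) ^ T * W ^ q) ≤ 3 * E1 H Y * (1 / 2) ^ q

/-- construction of an auxiliary function with small values, by pigeonhole -/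
def S_constr : Prop := ∀ (w : ℕ) (J : Type) [Fintype J] (k : J → Fin w → ℕ) (a : J → Fin w → ℂ)
  (θ : ℂ) (Θ X W Y : ℝ) (H T Q Δ N : ℕ),
  1 ≤ Θ → ‖θ‖ ≤ Θ → 1 ≤ X → 1 ≤ W → X * W ≤ Y → (∀ j i, ‖a j i‖ ≤ X) → (∀ j i, k j i + T ≤ H) →
  1 ≤ Δ → 1 ≤ N →
  (2 * (Fintype.card J * Δ * N * 2 ^ Q) + 1) ^ (2 * Q ^ w) < (N + 1) ^ (Fintype.card J * Δ) →
  ∃ p : J → ℤ[X], p ≠ 0 ∧ (∀ j, (p j).natDegree < Δ) ∧ (∀ j i, |(p j).coeff i| ≤ N) ∧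
    ∀ (t : Fin w → ℕ) (z : Fin w → ℂ), (∀ i, t i ≤ T) → (∀ i, ‖z i‖ ≤ W) →
      ‖∑ j, aeval θ (p j) *
        ∏ i, (LamC (a j i) (k j i) (t i) (z i) * Complex.exp (a j i * z i))‖ ≤
      (1 / 2 : ℝ) ^ Q * (((2 * Q ^ w + Fintype.card J * Δ * N * w : ℕ) : ℝ) *
        (3 * E1 H Y) ^ w * Θ ^ Δ)

/-- the values of the entries are represented by small matrices over `ℤ[θ]` -/
def S_rep : Prop := ∀ (θ : ℂ) (R : RD θ) (w b l : ℕ) (γ : Fin w → Fin b → ℂ)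
  (α : Fin w → Fin l → ℂ) (χ : Fin b → Fin l → ℂ) (K0 M T S : ℕ)
  (k : Fin w → ℕ) (m : Fin b → ℕ) (t : Fin w → ℕ) (s : Fin l → ℕ),
  (T = 0 ∨ ∀ i j, R.Rep 1 1 (γ i j)) → (∀ i, k i = 0 ∨ ∀ p, R.Rep 1 1 (α i p)) →
  (∀ j p, R.Rep 1 1 (χ j p)) →
  (∀ i, k i ≤ K0) → (∀ j, m j ≤ M) → (∀ i, t i ≤ T) → (∀ p, s p ≤ S) →
  R.Rep (w * (T + K0) + b * (l * (S * M)))
    (((R.ν : ℝ) + 1) ^ (b * l + 2 * w + 2) *
      ((((1 + l * S : ℕ) : ℝ) ^ K0) * ((1 + b * M + K0 : ℕ) : ℝ) ^ T) ^ w)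
    (entG γ α χ k m t s)

/-- Gelfond's method: auxiliary polynomials with many zeros, for infinitely many `n`.
`τ = 1`: derivatives are used and the `γ i j` are algebraic over `ℚ(θ)`;
`τ = 0`: no derivatives, the `γ i j` are arbitrary. -/
def S_aux : Prop := ∀ (θ : ℂ), Transcendental ℚ θ →
  ∀ (w b l : ℕ) (A : Finset (Fin w)) (τ : ℕ), τ ≤ 1 →
  ∀ (γ : Fin w → Fin b → ℂ) (ω : Fin w → Fin l → ℂ),
  (τ = 0 ∨ ∀ i j, Al θ (γ i j)) → (∀ i ∈ A, ∀ p, Al θ (ω i p)) →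
  (∀ j p, Al θ (Complex.exp (∑ i, γ i j * ω i p))) →
  ∀ κ μ σ : ℕ, μ + σ = κ → (2 * κ + 3) * (w + 1) + 1 ≤ A.card * κ + b * μ + 2 * κ →
  ∀ c n0 : ℕ, ∃ n ≥ n0, ∃ p : JG (fun i => if i ∈ A then n ^ κ else 0) b (n ^ μ) → ℂ, p ≠ 0 ∧
    ∀ (t : Fin w → ℕ) (s : Fin l → ℕ), (∀ i, t i ≤ τ * (c * n ^ κ)) → (∀ q, s q ≤ c * n ^ σ) →
      ∑ j, p j * entG γ ω (fun j q => Complex.exp (∑ i, γ i j * ω i q))
        (fun i => (j.1 i : ℕ)) (fun i => (j.2 i : ℕ)) t s = 0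

/-- obstruction theorem in transcendence degree one -/
def S_obs : Prop := ∀ (θ : ℂ), Transcendental ℚ θ →
  ∀ (w b l : ℕ) (A : Finset (Fin w)) (τ : ℕ), τ ≤ 1 →
  ∀ (γ : Fin w → Fin b → ℂ) (ω : Fin w → Fin l → ℂ),
  (τ = 0 ∨ ∀ i j, Al θ (γ i j)) → (∀ i ∈ A, ∀ p, Al θ (ω i p)) →
  (∀ j p, Al θ (Complex.exp (∑ i, γ i j * ω i p))) →
  ∀ κ μ σ : ℕ, μ + σ = κ → (2 * κ + 3) * (w + 1) + 1 ≤ A.card * κ + b * μ + 2 * κ →
    ∃ (Af' : Submodule ℂ (Fin w → ℂ)) (Rm' : AddSubgroup (Fin b → ℤ))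
      (W0 : Submodule ℂ (Fin w → ℂ)) (G0 : AddSubgroup (Fin l → ℤ)),
      (∀ a ∈ Af', ∀ i ∉ A, a i = 0) ∧ ¬ (Af' = ⊥ ∧ Rm' = ⊥) ∧
      (∀ c, c ∈ W0 ↔ (∀ a ∈ Af', ∑ i, a i * c i = 0) ∧
        ∀ m ∈ Rm', ∑ j, (m j : ℂ) * ∑ i, c i * γ i j = 0) ∧
      (∀ s, s ∈ G0 ↔ (∀ a ∈ Af', ∑ i, a i * ∑ p, ω i p * (s p : ℂ) = 0) ∧
        ∀ m ∈ Rm', ∃ n : ℤ, ∑ j, ∑ p, (m j : ℂ) * (s p : ℂ) * ∑ i, γ i j * ω i p =
          n * (2 * Real.pi * Complex.I)) ∧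
      (τ * ((w - finrank ℂ W0) * κ) + (l - finrank ℤ G0) * σ <
          finrank ℂ Af' * κ + finrank ℤ Rm' * μ ∨
        (τ * ((w - finrank ℂ W0) * κ) + (l - finrank ℤ G0) * σ =
          finrank ℂ Af' * κ + finrank ℤ Rm' * μ ∧ (τ = 0 ∨ w - finrank ℂ W0 = 0) ∧
            l - finrank ℤ G0 = 0))

/-- application of the obstruction theorem, `τ = 1` -/
def S_ineq1 : Prop := ∀ (θ : ℂ), Transcendental ℚ θ →
  ∀ (K : IntermediateField ℚ ℂ), (∀ z : K, Al θ z) →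
  ∀ (d l r : ℕ) (V : Submodule K (Fin d → K)) (z : Fin l → Fin d → K), finrank K V = r → r < d →
  (∀ p, z p ∈ V) → (∀ p i, Al θ (Complex.exp (z p i))) →
  ∃ (N : Submodule ℂ (Fin d → ℂ)) (Rm : AddSubgroup (Fin d → ℤ)) (G0 : AddSubgroup (Fin l → ℤ)),
    N ≤ kSpan ℂ Rm ∧ 1 ≤ finrank ℂ N ∧
    (∀ s ∈ G0, (∀ α ∈ N, ∑ j, α j * ((∑ p, (s p : K) * z p j : K) : ℂ) = 0) ∧
      ∀ m ∈ Rm, ∃ n : ℤ, ((∑ j, (m j : K) * ∑ p, (s p : K) * z p j : K) : ℂ) =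
        n * (2 * Real.pi * Complex.I)) ∧
    (finrank ℤ Rm + (l - finrank ℤ G0)) * (d - r) ≤ finrank ℂ N * d

/-- application of the obstruction theorem, `τ = 0` -/
def S_ineq0 : Prop := ∀ (θ L : ℂ), Transcendental ℚ θ → L ≠ 0 →
  ∀ (K : IntermediateField ℚ ℂ), (∀ z : K, Al θ z) →
  ∀ (d l r : ℕ) (V : Submodule K (Fin d → K)) (z : Fin l → Fin d → K), finrank K V = r → r < d →
  (∀ p, z p ∈ V) → (∀ p i, Al θ (Complex.exp (L * z p i))) →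
  ∃ (V' : Submodule K (Fin d → K)) (Rm : AddSubgroup (Fin d → ℤ)) (G0 : AddSubgroup (Fin l → ℤ))
    (f0 : ℕ), V' ≤ V ∧ finrank K V' + f0 ≤ r ∧ (1 ≤ f0 ∨ Rm ≠ ⊥) ∧
    (∀ s ∈ G0, (∑ p, (s p : K) • z p) ∈ V' ∧
      ∀ m ∈ Rm, ∃ n : ℤ, L * ((∑ j, (m j : K) * ∑ p, (s p : K) * z p j : K) : ℂ) =
        n * (2 * Real.pi * Complex.I)) ∧
    (l - finrank ℤ G0) * (d - r) ≤ f0 * d + finrank ℤ Rm * r

/-- rank of the group of points -/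
def S_g0 : Prop := ∀ (K : IntermediateField ℚ ℂ) (P : ℂ), P ≠ 0 →
  ∀ (d l : ℕ) (V' : Submodule K (Fin d → K)) (Rm : AddSubgroup (Fin d → ℤ))
    (G0 : AddSubgroup (Fin l → ℤ)) (z : Fin l → Fin d → K),
  (∀ s ∈ G0, (∑ p, (s p : K) • z p) ∈ V' ∧
    ∀ m ∈ Rm, ∃ n : ℤ, ((∑ j, (m j : K) * ∑ p, (s p : K) * z p j : K) : ℂ) = n * P) →
  ∃ (V'' : Submodule K (Fin d → K)) (G : AddSubgroup (Fin l → ℤ)),
    (∀ v, v ∈ V'' ↔ v ∈ V' ∧ ∀ m ∈ Rm, ∑ j, (m j : K) * v j = 0) ∧ G ≤ G0 ∧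
    (∀ s ∈ G, ∑ p, (s p : K) • z p ∈ V'') ∧
    finrank ℤ G0 + finrank K V'' ≤ finrank ℤ G + finrank K V' ∧ finrank K V'' + finrank ℤ Rm ≤ d

/-- dimension count with the annihilated space `N` -/
def S_lan : Prop := ∀ (K : IntermediateField ℚ ℂ) (d : ℕ) (V' V'' : Submodule K (Fin d → K))
  (Rm : AddSubgroup (Fin d → ℤ)) (N : Submodule ℂ (Fin d → ℂ)),
  (∀ v, v ∈ V'' ↔ v ∈ V' ∧ ∀ m ∈ Rm, ∑ j, (m j : K) * v j = 0) →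
  N ≤ kSpan ℂ Rm → (∀ v ∈ V', ∀ α ∈ N, ∑ j, α j * (v j : ℂ) = 0) →
  finrank K V' + finrank ℂ N ≤ finrank K V'' + finrank ℤ Rm

/-- the induction step: pass to a smaller subspace `V''` -/
def S_step (C : ℕ) (L : ℂ) : Prop := ∀ (θ : ℂ), Transcendental ℚ θ →
  ∀ (K : IntermediateField ℚ ℂ), (∀ z : K, Al θ z) →
  ∀ (d l r : ℕ) (V : Submodule K (Fin d → K)) (z : Fin l → Fin d → K), finrank K V = r → 0 < r →
  r < d → (∀ c : Fin d → ℚ, (∀ v ∈ V, ∑ i, (c i : K) * v i = 0) → c = 0) → (∀ p, z p ∈ V) →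
  (∀ p i, Al θ (Complex.exp (L * z p i))) →
  ∃ (V'' : Submodule K (Fin d → K)) (G : AddSubgroup (Fin l → ℤ)), V'' ≤ V ∧ finrank K V'' < r ∧
    (∀ s ∈ G, ∑ p, (s p : K) • z p ∈ V'') ∧
    l + C * (finrank K V'' * (finrank K V'' + 1)) ≤ finrank ℤ G + C * (r * (r + 1))

/-- **Linear subgroup theorem in transcendence degree one** (`C = 1`, `L = 1` or `C = 2`, `L ≠ 0`
arbitrary): a space `V` over `K` of dimension `r` which contains no nonzero rational vector contains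
at most `C r (r+1)` linearly independent points `z` with `e^{L z}` algebraic over `ℚ(θ)`. -/
def S_gen (C : ℕ) (L : ℂ) : Prop := ∀ (θ : ℂ), Transcendental ℚ θ →
  ∀ (K : IntermediateField ℚ ℂ), (∀ z : K, Al θ z) →
  ∀ (d l r : ℕ) (V : Submodule K (Fin d → K)) (z : Fin l → Fin d → K), finrank K V = r →
  (∀ q : Fin d → ℚ, (fun i => (q i : K)) ∈ V → q = 0) → (∀ p, z p ∈ V) →
  (∀ p i, Al θ (Complex.exp (L * z p i))) → LinearIndependent ℚ z → l ≤ C * (r * (r + 1))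

def S_step1 : Prop := S_step 1 1
def S_step2 : Prop := ∀ L : ℂ, L ≠ 0 → S_step 2 L
/-- the induction -/
def S_ind : Prop := ∀ (C : ℕ) (L : ℂ), S_step C L → S_gen C L

/-- the product inequality from the general theorem: `X` is an arbitrary space of complex numbers -/
def S_prod : Prop := ∀ (C : ℕ) (L : ℂ), S_gen C L → ∀ (θ : ℂ), Transcendental ℚ θ →
  ∀ (X W Y : Submodule ℚ ℂ) [FiniteDimensional ℚ X] [FiniteDimensional ℚ W]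
  [FiniteDimensional ℚ Y], (∀ z ∈ W, Al θ z) → (∀ z ∈ W, Al θ (Complex.exp (L * z))) →
  (∀ x ∈ X, ∀ z ∈ W, x * z ∈ Y) →
  finrank ℚ X * finrank ℚ W ≤ finrank ℚ Y + C * (finrank ℚ X * (finrank ℚ X - 1))

/-- families of exponentials of polynomials in `t`, multiplier `y` algebraic over `ℚ(t)` -/
def S_fam1 : Prop := ∀ (t y : ℂ), Transcendental ℚ t → y ≠ 0 → Al t y →
  ∀ (n : ℕ) (U : Submodule ℚ ℚ[X]), (∀ P ∈ U, P.natDegree ≤ n) →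
  (∀ P ∈ U, Al t (Complex.exp (y * aeval t P))) →
  (finrank ℚ U) ^ 2 ≤ 4 * n + 1

/-- the same, arbitrary multiplier -/
def S_fam2 : Prop := ∀ (t y : ℂ), Transcendental ℚ t → y ≠ 0 →
  ∀ (n : ℕ) (U : Submodule ℚ ℚ[X]), (∀ P ∈ U, P.natDegree ≤ n) →
  (∀ P ∈ U, Al t (Complex.exp (y * aeval t P))) →
  ∀ m : ℕ, m * finrank ℚ U + m ≤ n + 2 * m ^ 2

end Pool.Agent.W243.TD
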