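import Pool.Agent.W243.TD.Deg

/-!
# Fields of transcendence degree at most one
-/

set_option autoImplicit false

namespace Pool.Agent.W243.TD

open Module IntermediateField

theorem exists_theta (K : IntermediateField ℚ ℂ) (hK : Algebra.trdeg ℚ K ≤ 1) :
    ∃ θ : ℂ, Transcendental ℚ θ ∧ ∀ x : K, Al θ (x : ℂ) := by
  by_cases hal : Algebra.IsAlgebraic ℚ K
  · refine ⟨(Real.pi : ℂ), Pool.Agent.H340R2.LW.transcendental_pi_complex, fun x => ?_⟩
    have h1 : IsAlgebraic ℚ (x : ℂ) := (hal.isAlgebraic x).algebraMap (A := ℂ)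
    exact h1.extendScalars (algebraMap ℚ _).injective
  · rw [Algebra.isAlgebraic_def] at hal
    push Not at hal
    obtain ⟨θ, hθ⟩ := hal
    have h1 : AlgebraicIndependent ℚ (fun _ : Unit => θ) := by
      rw [algebraicIndependent_unique_type_iff]
      exact hθ
    have h2 : IsTranscendenceBasis ℚ (fun _ : Unit => θ) :=
      h1.isTranscendenceBasis_of_lift_trdeg_le_of_finite (by simpa using hK)
    have h3 : Algebra.IsAlgebraic ℚ⟮θ⟯ K := by
      have := h2.isAlgebraic_field
      rwa [Set.range_const] at this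
    refine ⟨(θ : ℂ), ?_, al_of_mem θ⟩
    intro h
    exact hθ ((isAlgebraic_algebraMap_iff (algebraMap K ℂ).injective).1 h)

end Pool.Agent.W243.TD
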